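import Pool.Agent.R737.PK.Stm

/-!
# MP_8cb80e_co, PIECE B: bases with a gap at least four, at most four gaps two
-/

set_option autoImplicit false

open Polynomial

namespace Pool.Agent.R668.PKB

open Pool.Agent.R737.PK

lemma prod_ineq (k : ℕ) :
    4 * ((∏ l ∈ Finset.range (k + 1), (3 + 2 * (l : ℝ))) *
      ∏ l ∈ Finset.range (k + 1), (1 + 2 * (l : ℝ))) ≤
    3 * (∏ l ∈ Finset.range (k + 1), (2 + 2 * (l : ℝ))) ^ 2 := by
  induction k with
  | zero => norm_num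
  | succ k ih =>
    rw [Finset.prod_range_succ, Finset.prod_range_succ (fun l : ℕ => (1 + 2 * (l : ℝ))),
      Finset.prod_range_succ (fun l : ℕ => (2 + 2 * (l : ℝ)))]
    set A := ∏ l ∈ Finset.range (k + 1), (3 + 2 * (l : ℝ))
    set C := ∏ l ∈ Finset.range (k + 1), (1 + 2 * (l : ℝ))
    set B := ∏ l ∈ Finset.range (k + 1), (2 + 2 * (l : ℝ))
    have hk : (0 : ℝ) ≤ ((k + 1 : ℕ) : ℝ) := Nat.cast_nonneg _
    set t : ℝ := ((k + 1 : ℕ) : ℝ)
    have h1 : (3 + 2 * t) * (1 + 2 * t) ≤ (2 + 2 * t) ^ 2 := by nlinarith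
    have h0 : 0 ≤ (3 + 2 * t) * (1 + 2 * t) := by positivity
    calc 4 * (A * (3 + 2 * t) * (C * (1 + 2 * t))) = (4 * (A * C)) * ((3 + 2 * t) * (1 + 2 * t)) := by
          ring
      _ ≤ (3 * B ^ 2) * ((3 + 2 * t) * (1 + 2 * t)) := by
          exact mul_le_mul_of_nonneg_right ih h0
      _ ≤ (3 * B ^ 2) * (2 + 2 * t) ^ 2 := by
          exact mul_le_mul_of_nonneg_left h1 (by positivity)
      _ = 3 * (B * (2 + 2 * t)) ^ 2 := by ring

lemma prod_T (T' : Finset ℝ) (j₀ k : ℕ) (hT' : ∀ a ∈ T', a < (j₀ : ℝ)) (x : ℝ) :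
    ∏ a ∈ T' ∪ (Finset.range (k + 1)).image (fun l : ℕ => (j₀ : ℝ) + 2 * (l : ℝ)), |x - a| =
      (∏ a ∈ T', |x - a|) * ∏ l ∈ Finset.range (k + 1), |x - ((j₀ : ℝ) + 2 * (l : ℝ))| := by
  rw [Finset.prod_union, Finset.prod_image]
  · intro a _ b _ hab
    have : (j₀ : ℝ) + 2 * (a : ℝ) = (j₀ : ℝ) + 2 * (b : ℝ) := hab
    have h2 : (a : ℝ) = b := by linarith
    exact_mod_cast h2
  · rw [Finset.disjoint_left]
    intro a ha hb
    rw [Finset.mem_image] at hb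
    obtain ⟨l, -, rfl⟩ := hb
    have := hT' _ ha
    have h2 : (0 : ℝ) ≤ l := Nat.cast_nonneg _
    linarith

lemma key (h1 : StVal) (h2 : StRR2) (h3 : StBz) (j₀ : ℕ) (P₀ ρ₀ : ℝ[X]) (hj : 4 ≤ j₀)
    (hR : Rep j₀ P₀ ρ₀) (hB : Base ρ₀) (hne : P₀.eval ((j₀ : ℝ) - 2) ≠ 0) (T' : Finset ℝ)
    (hT' : ∀ a ∈ T', ∃ i : ℕ, a = i ∧ i + 4 ≤ j₀ ∧ P₀.eval (i : ℝ) = 0) (k : ℕ) (hk : k ≤ 4)
    (hrr : RealRooted (chain P₀ j₀ k)) :
    4 * (|P₀.eval ((j₀ : ℝ) - 3)| * |P₀.eval ((j₀ : ℝ) - 1)|) *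
        (∏ a ∈ T', |(j₀ : ℝ) - 2 - a|) ^ 2 ≤
      3 * |P₀.eval ((j₀ : ℝ) - 2)| ^ 2 *
        ((∏ a ∈ T', |(j₀ : ℝ) - 3 - a|) * ∏ a ∈ T', |(j₀ : ℝ) - 1 - a|) := by
  obtain ⟨-, -, -, -, -, -, h7, h8⟩ := h1 j₀ P₀ ρ₀ (by omega) hR hB.good
  have hj' : (4 : ℝ) ≤ (j₀ : ℝ) := by exact_mod_cast hj
  have hT1 : ∀ a ∈ T', a < (j₀ : ℝ) := by
    intro a ha
    obtain ⟨i, rfl, hi, -⟩ := hT' a ha
    exact_mod_cast (by omega : i < j₀)
  set p := chain P₀ j₀ k with hp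
  have e1 : p.eval ((j₀ : ℝ) - 1) = (-2) ^ k * P₀.eval ((j₀ : ℝ) - 1) := by
    have := h8 k (j₀ - 1) (by omega)
    rwa [Nat.cast_sub (by omega), Nat.cast_one] at this
  have e2 : p.eval ((j₀ : ℝ) - 2) = (-2) ^ k * P₀.eval ((j₀ : ℝ) - 2) := by
    have := h8 k (j₀ - 2) (by omega)
    rwa [Nat.cast_sub (by omega), Nat.cast_ofNat] at this
  have e3 : p.eval ((j₀ : ℝ) - 3) = (-2) ^ k * P₀.eval ((j₀ : ℝ) - 3) := by
    have := h8 k (j₀ - 3) (by omega)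
    rwa [Nat.cast_sub (by omega), Nat.cast_ofNat] at this
  have habs : ∀ y : ℝ, |(-2 : ℝ) ^ k * y| = 2 ^ k * |y| := by
    intro y
    rw [abs_mul, abs_pow]
    norm_num
  have hp0 : p ≠ 0 := by
    intro h0
    rw [h0, eval_zero] at e2
    have : (-2 : ℝ) ^ k ≠ 0 := pow_ne_zero _ (by norm_num)
    exact (mul_ne_zero this hne) e2.symm
  set T := T' ∪ (Finset.range (k + 1)).image (fun l : ℕ => (j₀ : ℝ) + 2 * (l : ℝ)) with hT
  have main := h2 p ((j₀ : ℝ) - 2) T hp0 hrr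
    (by
      intro a ha
      rw [hT, Finset.mem_union, Finset.mem_image] at ha
      rcases ha with ha | ⟨l, hl, rfl⟩
      · obtain ⟨i, rfl, hi, hi0⟩ := hT' a ha
        rw [hp, h8 k i (by omega), hi0, mul_zero]
      · rw [Finset.mem_range] at hl
        exact h7 k l (by omega))
    (by
      intro a ha
      rw [hT, Finset.mem_union, Finset.mem_image] at ha
      rcases ha with ha | ⟨l, hl, rfl⟩
      · obtain ⟨i, rfl, hi, hi0⟩ := hT' a ha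
        left
        have : ((i + 4 : ℕ) : ℝ) ≤ (j₀ : ℝ) := by exact_mod_cast hi
        push_cast at this
        linarith
      · right
        have h2 : (0 : ℝ) ≤ l := Nat.cast_nonneg _
        linarith)
    (by
      intro x hx1 hx2
      exact h3 j₀ P₀ ρ₀ hj hR hB hne k hk x (by linarith) (by linarith))
  rw [show (j₀ : ℝ) - 2 - 1 = (j₀ : ℝ) - 3 by ring, show (j₀ : ℝ) - 2 + 1 = (j₀ : ℝ) - 1 by ring,
    hT, prod_T T' j₀ k hT1, prod_T T' j₀ k hT1, prod_T T' j₀ k hT1, e1, e2, e3, habs, habs,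
    habs] at main
  have a3 : ∏ l ∈ Finset.range (k + 1), |(j₀ : ℝ) - 3 - ((j₀ : ℝ) + 2 * (l : ℝ))| =
      ∏ l ∈ Finset.range (k + 1), (3 + 2 * (l : ℝ)) := by
    refine Finset.prod_congr rfl fun l _ => ?_
    have : (0 : ℝ) ≤ l := Nat.cast_nonneg _
    rw [abs_of_nonpos (by linarith)]
    ring
  have a2 : ∏ l ∈ Finset.range (k + 1), |(j₀ : ℝ) - 2 - ((j₀ : ℝ) + 2 * (l : ℝ))| =
      ∏ l ∈ Finset.range (k + 1), (2 + 2 * (l : ℝ)) := by
    refine Finset.prod_congr rfl fun l _ => ?_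
    have : (0 : ℝ) ≤ l := Nat.cast_nonneg _
    rw [abs_of_nonpos (by linarith)]
    ring
  have a1 : ∏ l ∈ Finset.range (k + 1), |(j₀ : ℝ) - 1 - ((j₀ : ℝ) + 2 * (l : ℝ))| =
      ∏ l ∈ Finset.range (k + 1), (1 + 2 * (l : ℝ)) := by
    refine Finset.prod_congr rfl fun l _ => ?_
    have : (0 : ℝ) ≤ l := Nat.cast_nonneg _
    rw [abs_of_nonpos (by linarith)]
    ring
  rw [a1, a2, a3] at main
  have hAC := prod_ineq k
  have hA : 0 < ∏ l ∈ Finset.range (k + 1), (3 + 2 * (l : ℝ)) :=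
    Finset.prod_pos fun l _ => by positivity
  have hC : 0 < ∏ l ∈ Finset.range (k + 1), (1 + 2 * (l : ℝ)) :=
    Finset.prod_pos fun l _ => by positivity
  have hBB : 0 < ∏ l ∈ Finset.range (k + 1), (2 + 2 * (l : ℝ)) :=
    Finset.prod_pos fun l _ => by positivity
  have hpos : ∀ t : ℝ, t ≤ 3 → 0 < ∏ a ∈ T', |(j₀ : ℝ) - t - a| := by
    intro t ht
    refine Finset.prod_pos fun a ha => ?_
    obtain ⟨i, rfl, hi, -⟩ := hT' a ha
    have : ((i + 4 : ℕ) : ℝ) ≤ (j₀ : ℝ) := by exact_mod_cast hi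
    push_cast at this
    rw [abs_pos]
    intro h
    linarith
  have hX := hpos 3 le_rfl
  have hY := hpos 2 (by norm_num)
  have hZ := hpos 1 (by norm_num)
  set X := ∏ a ∈ T', |(j₀ : ℝ) - 3 - a|
  set Y := ∏ a ∈ T', |(j₀ : ℝ) - 2 - a|
  set Z := ∏ a ∈ T', |(j₀ : ℝ) - 1 - a|
  set A := ∏ l ∈ Finset.range (k + 1), (3 + 2 * (l : ℝ))
  set C := ∏ l ∈ Finset.range (k + 1), (1 + 2 * (l : ℝ))
  set B := ∏ l ∈ Finset.range (k + 1), (2 + 2 * (l : ℝ))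
  set a := |P₀.eval ((j₀ : ℝ) - 3)|
  set b := |P₀.eval ((j₀ : ℝ) - 2)|
  set c := |P₀.eval ((j₀ : ℝ) - 1)|
  have h2k : (0 : ℝ) < 2 ^ k := by positivity
  set u : ℝ := 2 ^ k
  rw [div_mul_div_comm, div_pow, div_le_div_iff₀ (by positivity) (by positivity)] at main
  -- main : u * a * (u * c) * (Y * B) ^ 2 ≤ (u * b) ^ 2 * (X * A * (Z * C))
  have hu2 : 0 < u ^ 2 * B ^ 2 := by positivity
  have hfin : (4 * (a * c) * Y ^ 2) * (u ^ 2 * B ^ 2) ≤ (3 * b ^ 2 * (X * Z)) * (u ^ 2 * B ^ 2) := by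
    calc (4 * (a * c) * Y ^ 2) * (u ^ 2 * B ^ 2) = 4 * (u * a * (u * c) * (Y * B) ^ 2) := by ring
      _ ≤ 4 * ((u * b) ^ 2 * (X * A * (Z * C))) := by linarith
      _ = ((u * b) ^ 2 * (X * Z)) * (4 * (A * C)) := by ring
      _ ≤ ((u * b) ^ 2 * (X * Z)) * (3 * B ^ 2) :=
          mul_le_mul_of_nonneg_left hAC (by positivity)
      _ = (3 * b ^ 2 * (X * Z)) * (u ^ 2 * B ^ 2) := by ring
  exact le_of_mul_le_mul_right hfin hu2

/-- PIECE B. -/
theorem stB (h1 : StVal) (h2 : StRR2) (h3 : StBz) (h4 : StInt) (h5 : StBase) (h6 : StStep)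
    (h7 : StPure) (_h8 : StGood) : StB := by
  refine ⟨?_, ?_⟩
  · intro j P ρ hj hR hG g hg k hk hrr
    obtain ⟨i1, -, i3, i4, i5⟩ := h4.1 j P ρ hj hR hG
    have hR' := h6 j P ρ hR hG.anti g (by omega)
    have hB' := h5.1 j ρ hG g hg
    have c1 : (((j + g : ℕ) : ℝ)) - 1 = (j : ℝ) + ((g - 1 : ℕ) : ℝ) := by
      rw [Nat.cast_sub (by omega)]
      push_cast
      ring
    have c2 : (((j + g : ℕ) : ℝ)) - 2 = (j : ℝ) + ((g - 2 : ℕ) : ℝ) := by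
      rw [Nat.cast_sub (by omega)]
      push_cast
      ring
    have c3 : (((j + g : ℕ) : ℝ)) - 3 = (j : ℝ) + ((g - 3 : ℕ) : ℝ) := by
      rw [Nat.cast_sub (by omega)]
      push_cast
      ring
    have v1 := i3 g (g - 1) (by omega) (by omega) (by omega)
    have v2 := i3 g (g - 2) (by omega) (by omega) (by omega)
    have v3 := i3 g (g - 3) (by omega) (by omega) (by omega)
    have p1 := i1 (g - 1) (by omega)
    have p2 := i1 (g - 2) (by omega)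
    have p3 := i1 (g - 3) (by omega)
    have hne : (stp P j g).eval (((j + g : ℕ) : ℝ) - 2) ≠ 0 := by
      rw [c2, v2]
      exact neg_ne_zero.2 p2.ne'
    have hk' := key h1 h2 h3 (j + g) (stp P j g) (nxt j ρ g) (by omega) hR' hB' hne {(j : ℝ)}
      (by
        intro a ha
        rw [Finset.mem_singleton] at ha
        exact ⟨j, ha, by omega, i4 g (by omega)⟩) k hk hrr
    rw [Finset.prod_singleton, Finset.prod_singleton, Finset.prod_singleton] at hk'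
    rw [c1, c2, c3, v1, v2, v3, abs_neg, abs_neg, abs_neg, abs_of_pos p1, abs_of_pos p2,
      abs_of_pos p3] at hk'
    have hin := i5 g hg
    have d1 : ((g - 1 : ℕ) : ℝ) = (g : ℝ) - 1 := by rw [Nat.cast_sub (by omega), Nat.cast_one]
    have d2 : ((g - 2 : ℕ) : ℝ) = (g : ℝ) - 2 := by rw [Nat.cast_sub (by omega), Nat.cast_ofNat]
    have d3 : ((g - 3 : ℕ) : ℝ) = (g : ℝ) - 3 := by rw [Nat.cast_sub (by omega), Nat.cast_ofNat]
    rw [d1, d2, d3] at hk'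
    have hg' : (4 : ℝ) ≤ g := by exact_mod_cast hg
    rw [show (j : ℝ) + ((g : ℝ) - 1) - j = (g : ℝ) - 1 by ring,
      show (j : ℝ) + ((g : ℝ) - 2) - j = (g : ℝ) - 2 by ring,
      show (j : ℝ) + ((g : ℝ) - 3) - j = (g : ℝ) - 3 by ring,
      abs_of_pos (by linarith : (0 : ℝ) < (g : ℝ) - 1),
      abs_of_pos (by linarith : (0 : ℝ) < (g : ℝ) - 2),
      abs_of_pos (by linarith : (0 : ℝ) < (g : ℝ) - 3)] at hk'
    rw [show (j : ℝ) + (g : ℝ) - 1 = (j : ℝ) + ((g : ℝ) - 1) by ring,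
      show (j : ℝ) + (g : ℝ) - 2 = (j : ℝ) + ((g : ℝ) - 2) by ring,
      show (j : ℝ) + (g : ℝ) - 3 = (j : ℝ) + ((g : ℝ) - 3) by ring] at hin
    nlinarith [hk', hin]
  · intro m hm k hk hrr
    have hR' := h7 m (by omega)
    have hB' := h5.2 m hm
    have v := h4.2 m
    have v1 : (stp 1 0 m).eval ((m : ℝ) - 1) = -1 := by
      have := v (m - 1) (by omega) (by omega)
      rwa [Nat.cast_sub (by omega), Nat.cast_one] at this
    have v2 : (stp 1 0 m).eval ((m : ℝ) - 2) = -1 := by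
      have := v (m - 2) (by omega) (by omega)
      rwa [Nat.cast_sub (by omega), Nat.cast_ofNat] at this
    have v3 : (stp 1 0 m).eval ((m : ℝ) - 3) = -1 := by
      have := v (m - 3) (by omega) (by omega)
      rwa [Nat.cast_sub (by omega), Nat.cast_ofNat] at this
    have hk' := key h1 h2 h3 m (stp 1 0 m) (Pool.Agent.R737.PK.pure m) hm hR' hB'
      (by rw [v2]; norm_num) ∅ (by simp) k hk hrr
    rw [v1, v2, v3] at hk'
    norm_num at hk'

end Pool.Agent.R668.PKB
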